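import Mathlib
import Pool.Agent.H109R2.Disc

/-!
# The Witt group of a field, through Lagrangians of diagonal forms
-/

set_option autoImplicit false

namespace Run7.h848

open Pool.Agent.H109R2.Witt

variable (K : Type) [Field K]

/-- weights of a multiset of units -/
def wt {K : Type} [Field K] (s : Multiset Kˣ) : Multiset K := s.map (fun a : Kˣ => (a : K))

variable {K}

theorem wt_add (s t : Multiset Kˣ) : wt (s + t) = wt s + wt t := Multiset.map_add _ _ _

theorem zero_notMem_wt (s : Multiset Kˣ) : (0 : K) ∉ wt s := by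
  intro h
  obtain ⟨a, _, ha⟩ := Multiset.mem_map.1 h
  exact a.ne_zero ha

/-- the negative weights -/
def nwt {K : Type} [Field K] (s : Multiset Kˣ) : Multiset K := (wt s).map (fun a => -a)

theorem nwt_add (s t : Multiset Kˣ) : nwt (s + t) = nwt s + nwt t := by
  unfold nwt; rw [wt_add, Multiset.map_add]

theorem zero_notMem_nwt (s : Multiset Kˣ) : (0 : K) ∉ nwt s :=
  zero_notMem_map_neg (zero_notMem_wt s)

theorem Met.neg' {ι : Type*} [Fintype ι] {w : ι → K} (h : Met w) : Met (fun i => -w i) := by
  obtain ⟨L, h1, h2⟩ := h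
  refine ⟨L, h1, fun u hu v hv => ?_⟩
  have := h2 u hu v hv
  simp only [neg_mul, Finset.sum_neg_distrib, this, neg_zero]

theorem MM.neg' {s : Multiset K} (h : MM s) : MM (s.map fun a => -a) := by
  obtain ⟨n, w, rfl⟩ := exists_family s
  rw [Multiset.map_map]
  exact MM_of_Met (Met.neg' (Met_of_MM h))

theorem Met.smul' {ι : Type*} [Fintype ι] {w : ι → K} (h : Met w) (c : K) :
    Met (fun i => c * w i) := by
  obtain ⟨L, h1, h2⟩ := h
  refine ⟨L, h1, fun u hu v hv => ?_⟩
  have := h2 u hu v hv
  simp only [mul_assoc, ← Finset.mul_sum]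
  simp only [mul_assoc] at this
  rw [this, mul_zero]

theorem MM.smul' {s : Multiset K} (h : MM s) (c : K) : MM (s.map fun a => c * a) := by
  obtain ⟨n, w, rfl⟩ := exists_family s
  rw [Multiset.map_map]
  exact MM_of_Met (Met.smul' (Met_of_MM h) c)

variable (K)

/-- Witt equivalence. -/
def wcon : AddCon (Multiset Kˣ) where
  r s t := MM (wt s + nwt t)
  iseqv := by
    refine ⟨fun s => MM_self_neg _, ?_, ?_⟩
    · intro s t h
      have := MM.neg' h
      rw [Multiset.map_add] at this
      unfold nwt at this
      rw [Multiset.map_map] at this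
      have e : Multiset.map ((fun a : K => -a) ∘ fun a => -a) (wt t) = wt t := by
        have : ((fun a : K => -a) ∘ fun a => -a) = id := by funext a; simp
        rw [this, Multiset.map_id]
      rw [e, add_comm] at this
      exact this
    · intro s t u h1 h2
      have h3 := h1.add h2
      have e : wt s + nwt t + (wt t + nwt u) = (wt s + nwt u) + (wt t + nwt t) := by abel
      rw [e] at h3
      refine h3.cancel ?_ ?_ (MM_self_neg _)
      · simp [zero_notMem_wt, zero_notMem_nwt]
      · simp [zero_notMem_wt, zero_notMem_nwt]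
  add' := by
    intro s t u v h1 h2
    have h3 := h1.add h2
    rw [wt_add, nwt_add]
    have e : wt s + nwt t + (wt u + nwt v) = (wt s + wt u) + (nwt t + nwt v) := by abel
    rwa [e] at h3

/-- The Witt group. -/
def WG : Type := (wcon K).Quotient

instance : AddCommMonoid (WG K) := inferInstanceAs (AddCommMonoid (wcon K).Quotient)

variable {K}

/-- the class of a multiset -/
def mk (s : Multiset Kˣ) : WG K := ((s : (wcon K).Quotient) : WG K)

theorem mk_add (s t : Multiset Kˣ) : mk (s + t) = mk s + mk t := rfl

theorem mk_eq {s t : Multiset Kˣ} : mk s = mk t ↔ MM (wt s + nwt t) := (wcon K).eq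

theorem ind (x : WG K) : ∃ s, mk s = x := by
  induction x using AddCon.induction_on with
  | H s => exact ⟨s, rfl⟩

theorem MM_zero : MM (0 : Multiset K) := by
  have := MM_self_neg (0 : Multiset K)
  simpa using this

theorem mk_zero : mk (0 : Multiset Kˣ) = 0 := rfl

theorem mk_add_neg (s : Multiset Kˣ) : mk s + mk (s.map fun a => -a) = 0 := by
  rw [← mk_add, ← mk_zero, mk_eq]
  have : wt (s + s.map fun a => -a) + nwt 0 = wt s + (wt s).map fun a => -a := by
    rw [wt_add]
    simp [nwt, wt, Multiset.map_map, Function.comp_def]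
  rw [this]
  exact MM_self_neg _

noncomputable instance : Neg (WG K) := ⟨fun x => mk ((ind x).choose.map fun a => -a)⟩

theorem neg_add_cancel' (x : WG K) : -x + x = 0 := by
  change mk ((ind x).choose.map fun a => -a) + x = 0
  have h := (ind x).choose_spec
  have h2 := mk_add_neg (ind x).choose
  rw [add_comm] at h2
  rw [h] at h2
  exact h2

noncomputable instance : AddCommGroup (WG K) :=
  { (inferInstance : AddCommMonoid (WG K)), (inferInstance : Neg (WG K)) with
    neg_add_cancel := neg_add_cancel'
    zsmul := zsmulRec }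

open Classical in
/-- the class of a form of rank one -/
noncomputable def cz (a : K) : WG K := if h : a = 0 then 0 else mk {Units.mk0 a h}

theorem cz_zero : cz (0 : K) = 0 := by simp [cz]

theorem cz_unit (a : Kˣ) : cz (a : K) = mk {a} := by
  unfold cz
  rw [dif_neg a.ne_zero]
  simp

theorem cz_eq {a : K} (h : a ≠ 0) : cz a = mk {Units.mk0 a h} := by
  unfold cz
  rw [dif_neg h]

theorem cz_sq (a b : K) (hb : b ≠ 0) : cz (a * b ^ 2) = cz a := by
  by_cases ha : a = 0
  · subst ha; simp
  rw [cz_eq ha, cz_eq (mul_ne_zero ha (pow_ne_zero 2 hb)), eq_comm, mk_eq]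
  have := MM_scale a b
  simpa [wt, nwt] using this

theorem cz_neg (a : K) : cz (-a) = -cz a := by
  by_cases ha : a = 0
  · subst ha; simp [cz_zero]
  rw [cz_eq ha, cz_eq (neg_ne_zero.2 ha), eq_neg_iff_add_eq_zero, add_comm]
  have := mk_add_neg ({Units.mk0 a ha} : Multiset Kˣ)
  convert this using 3
  rw [Multiset.map_singleton]
  congr 1
  ext
  simp

theorem cz_add (a b : K) : cz a + cz b = cz (a + b) + cz (a * b * (a + b)) := by
  by_cases ha : a = 0
  · subst ha; simp [cz_zero]
  by_cases hb : b = 0
  · subst hb; simp [cz_zero]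
  by_cases hab : a + b = 0
  · have : b = -a := by linear_combination hab
    subst this
    rw [cz_neg, add_neg_cancel, add_neg_cancel, mul_zero, cz_zero, add_zero]
  rw [cz_eq ha, cz_eq hb, cz_eq hab, cz_eq (mul_ne_zero (mul_ne_zero ha hb) hab), ← mk_add,
    ← mk_add, mk_eq]
  have := MM_pair a b
  simpa [wt, nwt, Multiset.insert_eq_cons] using this

/-- the sum of the classes of the members of a multiset -/
noncomputable def csum (s : Multiset K) : WG K := (s.map cz).sum

theorem csum_add (s t : Multiset K) : csum (s + t) = csum s + csum t := by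
  unfold csum; rw [Multiset.map_add, Multiset.sum_add]

theorem csum_neg (s : Multiset K) : csum (s.map fun a => -a) = -csum s := by
  unfold csum
  rw [Multiset.map_map]
  simp only [Function.comp_def, cz_neg]
  exact Multiset.sum_map_neg

theorem mk_eq_sum (s : Multiset Kˣ) : mk s = csum (wt s) := by
  induction s using Multiset.induction with
  | empty => rfl
  | cons a s ih =>
    rw [← Multiset.singleton_add, mk_add, wt_add, csum_add, ih]
    congr 1
    simp [wt, csum, cz_unit]

theorem exists_units (s : Multiset K) (hs : (0 : K) ∉ s) : ∃ t : Multiset Kˣ, wt t = s := by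
  induction s using Multiset.induction with
  | empty => exact ⟨0, rfl⟩
  | cons a s ih =>
    rw [Multiset.mem_cons, not_or] at hs
    obtain ⟨t, rfl⟩ := ih hs.2
    exact ⟨Units.mk0 a (Ne.symm hs.1) ::ₘ t, by simp [wt]⟩

/-- A diagonal form is metabolic if and only if its class is zero. -/
theorem csum_eq_zero {s : Multiset K} (hs : (0 : K) ∉ s) : csum s = 0 ↔ MM s := by
  obtain ⟨t, rfl⟩ := exists_units s hs
  rw [← mk_eq_sum, ← mk_zero, mk_eq]
  simp [nwt, wt]

end Run7.h848
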