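import Mathlib
import Pool.Agent.Run7.h848.WGrp

/-!
# Witt equivalent forms of the same dimension are isometric
-/

set_option autoImplicit false

namespace Run7.h848

open Module Pool.Agent.H109R2.Witt

variable {K : Type} [Field K] [CharZero K]

/-- A metabolic sum of a form with a form of smaller dimension: the larger one is isotropic. -/
theorem isotropic_of_met {ι κ : Type} [Fintype ι] [Fintype κ] {w : ι → K} {v : κ → K}
    (hc : Fintype.card κ < Fintype.card ι) (h : Met (Sum.elim w v)) :
    ∃ x : ι → K, x ≠ 0 ∧ ∑ i, w i * x i * x i = 0 := by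
  obtain ⟨L, h1, h2⟩ := h
  rw [Fintype.card_sum] at h1
  let T : L →ₗ[K] (κ → K) := (LinearMap.funLeft K K (Sum.inr : κ → ι ⊕ κ)).domRestrict L
  have h3 := LinearMap.finrank_range_add_finrank_ker T
  have h4 := Submodule.finrank_le (LinearMap.range T)
  rw [Module.finrank_fintype_fun_eq_card] at h4
  have h5 : 0 < finrank K (LinearMap.ker T) := by omega
  have h6 : Nontrivial (LinearMap.ker T) := Module.finrank_pos_iff.1 h5
  obtain ⟨⟨⟨x, hxL⟩, hxT⟩, hx0⟩ := exists_ne (0 : LinearMap.ker T)
  have hxr : ∀ k, x (Sum.inr k) = 0 := fun k => congrFun (LinearMap.mem_ker.1 hxT) k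
  refine ⟨fun i => x (Sum.inl i), ?_, ?_⟩
  · intro h
    apply hx0
    ext i
    rcases i with i | k
    · exact congrFun h i
    · exact hxr k
  · have := h2 x hxL x hxL
    rw [Fintype.sum_sum_type] at this
    simp only [Sum.elim_inl, Sum.elim_inr, hxr, mul_zero, Finset.sum_const_zero, add_zero] at this
    exact this

/-- An isotropic form represents everything. -/
theorem rep_of_isotropic {ι : Type} [Fintype ι] {w : ι → K} (hw : ∀ i, w i ≠ 0) (a : K)
    {y : ι → K} (hy : y ≠ 0) (h : ∑ i, w i * y i * y i = 0) :
    ∃ z : ι → K, ∑ i, w i * z i * z i = a := by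
  classical
  obtain ⟨i, hi⟩ := Function.ne_iff.1 hy
  rw [Pi.zero_apply] at hi
  -- `z = e_i + s y`
  refine ⟨fun j => (if j = i then 1 else 0) + ((a - w i) / (2 * (w i * y i))) * y j, ?_⟩
  set s := (a - w i) / (2 * (w i * y i)) with hs
  have hwy : 2 * (w i * y i) ≠ 0 := mul_ne_zero two_ne_zero (mul_ne_zero (hw i) hi)
  have e1 : ∀ j, w j * ((if j = i then 1 else 0) + s * y j) * ((if j = i then 1 else 0) + s * y j) =
      (if j = i then w j * (1 + 2 * s * y j) else 0) + s ^ 2 * (w j * y j * y j) := by
    intro j
    split_ifs <;> ring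
  simp only [e1]
  rw [Finset.sum_add_distrib, ← Finset.mul_sum, h, mul_zero, add_zero, Finset.sum_ite_eq']
  rw [if_pos (Finset.mem_univ i)]
  have : s * (2 * (w i * y i)) = a - w i := div_mul_cancel₀ _ hwy
  linear_combination this

/-- Splitting off a value. -/
theorem split_off {n : ℕ} {u : Fin (n + 1) → K} (hu : ∀ i, u i ≠ 0) {a : K} (ha : a ≠ 0)
    (h : ∃ z : Fin (n + 1) → K, ∑ i, u i * z i * z i = a) :
    ∃ (w : Fin n → K) (f : (Fin (n + 1) → K) →ₗ[K] (Fin (n + 1) → K)), (∀ i, w i ≠ 0) ∧
      ∀ x y, ∑ i, u i * f x i * f y i =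
        ∑ i, (Fin.cons a w : Fin (n + 1) → K) i * x i * y i := by
  classical
  obtain ⟨z, hz⟩ := h
  let B : LinearMap.BilinForm K (Fin (n + 1) → K) := Matrix.toBilin' (Matrix.diagonal u)
  have hBapp : ∀ a b, B a b = ∑ i, u i * a i * b i := by
    intro a b
    simp only [B, Matrix.toBilin'_apply]
    simp only [Matrix.diagonal_apply, mul_ite, mul_zero, ite_mul, zero_mul,
      Finset.sum_ite_eq, Finset.mem_univ, if_true]
    refine Finset.sum_congr rfl fun i _ => ?_
    ring
  have hBnd : B.Nondegenerate := by
    apply LinearMap.BilinForm.nondegenerate_toBilin'_of_det_ne_zero'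
    rw [Matrix.det_diagonal, Finset.prod_ne_zero_iff]
    intro i _
    exact hu i
  have hsymm : B.IsSymm := ⟨fun a b => by
    rw [hBapp, hBapp]
    exact Finset.sum_congr rfl fun i _ => by ring⟩
  have hzz : B z z ≠ 0 := by rw [hBapp, hz]; exact ha
  have hort : ¬ B.IsOrtho z z := hzz
  obtain ⟨W, hW⟩ : ∃ W, W = B.orthogonal (Submodule.span K {z}) := ⟨_, rfl⟩
  have hWnd : (B.restrict W).Nondegenerate := by
    rw [hW]
    exact LinearMap.BilinForm.restrict_nondegenerate_orthogonal_spanSingleton B hBnd
      hsymm.isRefl hort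
  have hcompl : IsCompl (Submodule.span K {z}) W := by
    rw [hW]
    exact LinearMap.BilinForm.isCompl_span_singleton_orthogonal hort
  have hz0 : z ≠ 0 := by
    rintro rfl
    apply hzz
    simp
  have hWr : finrank K W = n := by
    have h1 := Submodule.finrank_add_eq_of_isCompl hcompl
    rw [finrank_span_singleton hz0, Module.finrank_fintype_fun_eq_card, Fintype.card_fin] at h1
    omega
  have : Invertible (2 : K) := invertibleOfNonzero two_ne_zero
  have hrs : LinearMap.IsSymm (B.restrict W) := ⟨fun a b => hsymm.eq a b⟩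
  obtain ⟨v, hv⟩ := LinearMap.BilinForm.exists_orthogonal_basis (B := B.restrict W) hrs
  let v' : Basis (Fin n) K W := v.reindex (finCongr hWr)
  have hv' : ∀ i j, i ≠ j → B (v' i) (v' j) = 0 := by
    intro i j hij
    have := hv (i := (finCongr hWr).symm i) (j := (finCongr hWr).symm j) (by
      intro h; exact hij ((finCongr hWr).symm.injective h))
    simpa [v', Function.onFun] using this
  have hvn : ∀ i, B (v' i) (v' i) ≠ 0 := by
    intro i h0
    have h1 := LinearMap.BilinForm.iIsOrtho.not_isOrtho_basis_self_of_nondegenerate hv hWnd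
      ((finCongr hWr).symm i)
    apply h1
    have : v ((finCongr hWr).symm i) = v' i := by simp [v']
    rw [this]
    exact h0
  have hzv : ∀ i, B z (v' i) = 0 := by
    intro i
    have h1 : ∀ y ∈ W, B z y = 0 := by
      intro y hy
      rw [hW] at hy
      exact (LinearMap.BilinForm.mem_orthogonal_iff.1 hy) z (Submodule.mem_span_singleton_self z)
    exact h1 _ (v' i).2
  have hvz : ∀ i, B (v' i) z = 0 := fun i => by rw [← hsymm.eq]; exact hzv i
  let g : Fin (n + 1) → (Fin (n + 1) → K) := Fin.cons z fun i => (v' i : Fin (n + 1) → K)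
  have hg : ∀ i j, B (g i) (g j) = if i = j then (Fin.cons a (fun i => B (v' i) (v' i)) :
      Fin (n + 1) → K) i else 0 := by
    intro i j
    refine Fin.cases ?_ (fun i => ?_) i <;> refine Fin.cases ?_ (fun j => ?_) j
    · simp only [g, Fin.cons_zero, if_true]
      rw [hBapp, hz]
    · simp only [g, Fin.cons_zero, Fin.cons_succ]
      rw [if_neg (Fin.succ_ne_zero j).symm]
      exact hzv j
    · simp only [g, Fin.cons_zero, Fin.cons_succ]
      rw [if_neg (Fin.succ_ne_zero i)]
      exact hvz i
    · simp only [g, Fin.cons_succ, Fin.succ_inj]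
      split_ifs with h
      · rw [h]
      · exact hv' i j h
  refine ⟨fun i => B (v' i) (v' i), Fintype.linearCombination K g, hvn, fun x y => ?_⟩
  rw [← hBapp, Fintype.linearCombination_apply, Fintype.linearCombination_apply, map_sum B,
    LinearMap.sum_apply]
  refine Finset.sum_congr rfl fun i _ => ?_
  rw [map_sum]
  simp only [map_smul, LinearMap.smul_apply, smul_eq_mul, hg]
  rw [Finset.sum_eq_single i]
  · rw [if_pos rfl]; ring
  · intro j _ hj
    rw [if_neg (Ne.symm hj)]; ring
  · intro h; exact absurd (Finset.mem_univ i) h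

theorem cs_cons {n : ℕ} (a : K) (w : Fin n → K) :
    Finset.univ.val.map (Fin.cons a w : Fin (n + 1) → K) = a ::ₘ Finset.univ.val.map w := by
  rw [Fin.univ_val_map, Fin.univ_val_map, List.ofFn_cons]
  rfl

theorem zero_notMem_univ {n : ℕ} {w : Fin n → K} (hw : ∀ i, w i ≠ 0) :
    (0 : K) ∉ Finset.univ.val.map w := by
  intro h
  obtain ⟨i, _, hi⟩ := Multiset.mem_map.1 h
  exact hw i hi

/-- **Witt equivalent forms of the same dimension are isometric.** -/
theorem isometry_of_witt {n : ℕ} : ∀ {w u : Fin n → K}, (∀ i, w i ≠ 0) → (∀ i, u i ≠ 0) →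
    csum (Finset.univ.val.map w) = csum (Finset.univ.val.map u) →
    ∃ f : (Fin n → K) →ₗ[K] (Fin n → K), ∀ x y, ∑ i, u i * f x i * f y i = ∑ i, w i * x i * y i := by
  induction n with
  | zero =>
    intro w u _ _ _
    exact ⟨0, fun x y => by simp⟩
  | succ n ih =>
    intro w u hw hu h
    obtain ⟨a, w', rfl⟩ : ∃ a w', w = Fin.cons a w' := ⟨w 0, Fin.tail w, (Fin.cons_self_tail w).symm⟩
    have ha : a ≠ 0 := hw 0
    have hw' : ∀ i, w' i ≠ 0 := fun i => hw i.succ
    -- `u` represents `a`
    have hrep : ∃ z : Fin (n + 1) → K, ∑ i, u i * z i * z i = a := by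
      have h1 : MM ((Finset.univ.val.map u + {-a}) + (Finset.univ.val.map w').map fun a => -a) := by
        rw [← csum_eq_zero, csum_add, csum_add, csum_neg, ← h, cs_cons]
        · unfold csum
          simp [cz_neg]
        · simp only [Multiset.mem_add, not_or]
          refine ⟨⟨zero_notMem_univ hu, ?_⟩, zero_notMem_map_neg (zero_notMem_univ hw')⟩
          rw [Multiset.mem_singleton]
          exact (neg_ne_zero.2 ha).symm
      have e : Finset.univ.val.map (Sum.elim (Sum.elim u fun _ : Unit => -a) fun i => -w' i) =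
          (Finset.univ.val.map u + {-a}) + (Finset.univ.val.map w').map fun a => -a := by
        rw [map_sumElim, map_sumElim, Multiset.map_map]
        rfl
      rw [← e] at h1
      obtain ⟨x, hx0, hx⟩ := isotropic_of_met (by simp) (Met_of_MM h1)
      rw [Fintype.sum_sum_type] at hx
      simp only [Sum.elim_inl, Sum.elim_inr, Finset.univ_unique, Finset.sum_singleton] at hx
      by_cases ht : x (Sum.inr default) = 0
      · rw [ht, mul_zero, add_zero] at hx
        refine rep_of_isotropic hu a (y := fun i => x (Sum.inl i)) ?_ hx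
        intro h0
        apply hx0
        ext i
        rcases i with i | i
        · exact congrFun h0 i
        · exact ht
      · refine ⟨fun i => x (Sum.inl i) / x (Sum.inr default), ?_⟩
        have h2 : ∑ i, u i * x (Sum.inl i) * x (Sum.inl i) =
            a * x (Sum.inr default) * x (Sum.inr default) := by linear_combination hx
        have h3 : ∑ i, u i * (x (Sum.inl i) / x (Sum.inr default)) *
            (x (Sum.inl i) / x (Sum.inr default)) =
            (∑ i, u i * x (Sum.inl i) * x (Sum.inl i)) / (x (Sum.inr default)) ^ 2 := by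
          rw [Finset.sum_div]
          refine Finset.sum_congr rfl fun i _ => ?_
          field_simp
        rw [h3, h2]
        field_simp
    obtain ⟨w'', f, hw'', hf⟩ := split_off hu ha hrep
    have h4 := MM_graph (K := K) (w := u) (u := (Fin.cons a w'' : Fin (n + 1) → K)) le_rfl f hf
    rw [← csum_eq_zero, csum_add, csum_neg, ← h, cs_cons, cs_cons] at h4
    · have h5 : csum (Finset.univ.val.map w') = csum (Finset.univ.val.map w'') := by
        unfold csum at h4 ⊢
        simp only [Multiset.map_cons, Multiset.sum_cons] at h4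
        have := sub_eq_zero.1 ((sub_eq_add_neg _ _).trans h4)
        exact add_left_cancel this
      obtain ⟨g, hg⟩ := ih hw' hw'' h5
      let G : (Fin (n + 1) → K) →ₗ[K] (Fin (n + 1) → K) :=
        { toFun := fun x => Fin.cons (x 0) (g (Fin.tail x))
          map_add' := by
            intro x y
            have : Fin.tail (x + y) = Fin.tail x + Fin.tail y := rfl
            rw [this, map_add]
            ext i
            refine Fin.cases ?_ (fun i => ?_) i <;> simp
          map_smul' := by
            intro c x
            have : Fin.tail (c • x) = c • Fin.tail x := rfl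
            rw [this, map_smul]
            ext i
            refine Fin.cases ?_ (fun i => ?_) i <;> simp }
      refine ⟨f ∘ₗ G, fun x y => ?_⟩
      rw [LinearMap.comp_apply, LinearMap.comp_apply, hf, Fin.sum_univ_succ, Fin.sum_univ_succ]
      have h6 := hg (Fin.tail x) (Fin.tail y)
      simp only [G, LinearMap.coe_mk, AddHom.coe_mk, Fin.cons_zero, Fin.cons_succ]
      rw [h6]
      rfl
    · simp only [Multiset.mem_add, not_or]
      refine ⟨zero_notMem_univ hu, zero_notMem_map_neg (zero_notMem_univ ?_)⟩
      intro i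
      refine Fin.cases ?_ (fun i => ?_) i
      · exact ha
      · exact hw'' i

end Run7.h848
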